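import Pool.Agent.Mob.Stmts

/-!
# Squad T2, module SEP: separation of the spectra of the inner cube and of the shell
-/

set_option autoImplicit false
set_option linter.unusedSectionVars false

open MeasureTheory ProbabilityTheory Function

open scoped ENNReal BigOperators Nat

noncomputable section

namespace Pool.Agent.Mob.H6

open Pool.Agent.Anderson Pool.Agent.Loc Pool.Agent.Helper54.Bal

variable {d : ℕ}

theorem noEig_congr {V V' : Site d → ℝ} {Λ : Finset (Site d)} (h : ∀ x ∈ Λ, V x = V' x)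
    (E r : ℝ) : NoEig V Λ E r ↔ NoEig V' Λ E r := by
  unfold NoEig
  simp only [RM_congr h]

theorem iIndep_PP (ν : Measure ℝ) [IsProbabilityMeasure ν] :
    iIndepFun (fun (z : Site d) (V : Site d → ℝ) => V z) (PP d ν) := by
  unfold PP
  exact iIndepFun_infinitePi (P := fun _ : Site d => ν) (X := fun _ t => t)
    (fun _ => measurable_id)

/-- The law of `V` on `Λ` under the infinite product. -/
theorem PP_eq_PL (ν : Measure ℝ) [IsProbabilityMeasure ν] {Λ : Finset (Site d)}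
    {S : Set (Site d → ℝ)} (hS : MeasurableSet S)
    (h : ∀ W W' : Site d → ℝ, (∀ x ∈ Λ, W x = W' x) → (W ∈ S ↔ W' ∈ S)) :
    PP d ν S = PL ν Λ S := by
  have h1 := transfer (V := fun (z : Site d) (V : Site d → ℝ) => V z) (P := PP d ν) (ν := ν)
    (fun z => measurable_pi_apply z)
    (fun z => (measurePreserving_eval_infinitePi (fun _ : Site d => ν) z).map_eq)
    (iIndep_PP ν) hS h
  exact h1

/-- Events which depend on disjoint sets are independent. -/
theorem PP_inter (ν : Measure ℝ) [IsProbabilityMeasure ν] {A B : Finset (Site d)}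
    (hAB : Disjoint A B) {S T : Set (Site d → ℝ)} (hS : MeasurableSet S) (hT : MeasurableSet T)
    (hSA : ∀ W W' : Site d → ℝ, (∀ x ∈ A, W x = W' x) → (W ∈ S ↔ W' ∈ S))
    (hTB : ∀ W W' : Site d → ℝ, (∀ x ∈ B, W x = W' x) → (W ∈ T ↔ W' ∈ T)) :
    PP d ν (S ∩ T) = PP d ν S * PP d ν T := by
  have h1 := (iIndep_PP (d := d) ν).indepFun_finset A B hAB (fun z => measurable_pi_apply z)
  have hu : ∀ Λ : Finset (Site d), Measurable (updateFinset (0 : Site d → ℝ) Λ) :=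
    fun Λ => measurable_updateFinset
  have hpre : ∀ (Λ : Finset (Site d)) (U : Set (Site d → ℝ)),
      (∀ W W' : Site d → ℝ, (∀ x ∈ Λ, W x = W' x) → (W ∈ U ↔ W' ∈ U)) →
      (fun (V : Site d → ℝ) (z : Λ) => V z) ⁻¹' (updateFinset (0 : Site d → ℝ) Λ ⁻¹' U) = U := by
    intro Λ U hU
    ext V
    rw [Set.mem_preimage, Set.mem_preimage]
    apply hU
    intro x hx
    simp [updateFinset, hx]
  have h2 := h1.measure_inter_preimage_eq_mul _ _ (hu A hS) (hu B hT)
  rw [hpre A S hSA, hpre B T hTB] at h2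
  exact h2

/-- the bad event at the scale `k` -/
def badS (d : ℕ) (a b : ℝ) (k : ℕ) : Set (Site d → ℝ) :=
  {V | ∃ E ∈ Set.Icc a b, ¬ NoEig V (box 0 (5 * k)) E (Real.exp (-√k)) ∧
    ¬ NoEig V (box 0 (8 * k) \ box 0 (5 * k)) E (Real.exp (-√k))}

theorem noEig_near {V : Site d → ℝ} {Λ : Finset (Site d)} {E E' e : ℝ} (h : ¬ NoEig V Λ E e)
    (hE : |E - E'| ≤ e) : ¬ NoEig V Λ E' (2 * e) := by
  intro h'
  apply h
  intro F hF
  apply h' F
  calc |F - E'| = |(F - E) + (E - E')| := by ring_nf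
    _ ≤ |F - E| + |E - E'| := abs_add_le _ _
    _ ≤ 2 * e := by linarith

theorem prob_badS (hweg : WegStmt) {ν : Measure ℝ} [IsProbabilityMeasure ν] {ρ : ℝ}
    (hν : BddDens ν ρ) (a b : ℝ) (k : ℕ) :
    PP d ν (badS d a b k) ≤ ENNReal.ofReal
      ((|b - a| + 1) * (128 * ρ) ^ 2 * ((16 * k + 1) ^ (2 * d) * Real.exp (-√k))) := by
  have hρ := hν.1
  obtain ⟨e, he⟩ : ∃ e, e = Real.exp (-√k) := ⟨_, rfl⟩
  have he0 : 0 < e := by rw [he]; exact Real.exp_pos _
  have he1 : e ≤ 1 := by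
    rw [he, Real.exp_le_one_iff]
    have := Real.sqrt_nonneg (k : ℝ)
    linarith
  obtain ⟨A, hA⟩ : ∃ A : Finset (Site d), A = box 0 (5 * k) := ⟨_, rfl⟩
  obtain ⟨B, hB⟩ : ∃ B : Finset (Site d), B = box 0 (8 * k) \ box 0 (5 * k) := ⟨_, rfl⟩
  have hAB : Disjoint A B := by rw [hA, hB]; exact Finset.disjoint_sdiff
  have hAc : A ⊆ box 0 (8 * k) := by rw [hA]; exact box_mono 0 (by omega)
  have hBc : B ⊆ box 0 (8 * k) := by rw [hB]; exact Finset.sdiff_subset
  have hcard : (((box (0 : Site d) (8 * k)).card : ℕ) : ℝ) = (16 * k + 1) ^ d := by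
    rw [card_box]
    push_cast
    ring
  have hm : ∀ (Λ : Finset (Site d)) (E : ℝ),
      MeasurableSet {V : Site d → ℝ | ¬ NoEig V Λ E (2 * e)} := fun Λ E =>
    (hweg d ν ρ hν Λ E (2 * e) (by positivity)).1.compl
  have hp : ∀ (Λ : Finset (Site d)) (E : ℝ), Λ ⊆ box 0 (8 * k) →
      PP d ν {V : Site d → ℝ | ¬ NoEig V Λ E (2 * e)} ≤
        ENNReal.ofReal (128 * ρ * (16 * k + 1) ^ d * e) := by
    intro Λ E hΛ
    rw [PP_eq_PL ν (hm Λ E) (fun W W' hW => not_congr (noEig_congr hW E (2 * e)))]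
    refine ((hweg d ν ρ hν Λ E (2 * e) (by positivity)).2).trans (ENNReal.ofReal_le_ofReal ?_)
    have h1 : (Λ.card : ℝ) ≤ (16 * k + 1) ^ d := by
      rw [← hcard]
      exact_mod_cast Finset.card_le_card hΛ
    calc 64 * ρ * Λ.card * (2 * e) = 128 * ρ * e * Λ.card := by ring
      _ ≤ 128 * ρ * e * (16 * k + 1) ^ d := by gcongr
      _ = _ := by ring
  have hsub : badS d a b k ⊆ ⋃ j ∈ Finset.range (⌊|b - a| / e⌋₊ + 1),
      ({V : Site d → ℝ | ¬ NoEig V A (a + j * e) (2 * e)} ∩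
        {V : Site d → ℝ | ¬ NoEig V B (a + j * e) (2 * e)}) := by
    rintro V ⟨E, hE, h1, h2⟩
    rw [← hA, ← he] at h1
    rw [← hB, ← he] at h2
    have hab : a ≤ b := hE.1.trans hE.2
    have h3 : 0 ≤ (E - a) / e := div_nonneg (by linarith [hE.1]) he0.le
    have h4 : |E - (a + ⌊(E - a) / e⌋₊ * e)| ≤ e := by
      have h5 := Nat.floor_le h3
      have h6 := Nat.lt_floor_add_one ((E - a) / e)
      rw [le_div_iff₀ he0] at h5
      rw [div_lt_iff₀ he0] at h6
      rw [abs_le]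
      constructor <;> nlinarith
    simp only [Set.mem_iUnion, exists_prop]
    refine ⟨⌊(E - a) / e⌋₊, ?_, noEig_near h1 h4, noEig_near h2 h4⟩
    rw [Finset.mem_range, Nat.lt_succ_iff]
    apply Nat.floor_le_floor
    rw [abs_of_nonneg (by linarith)]
    gcongr
    exact hE.2
  have hK : 0 ≤ 128 * ρ * (16 * k + 1) ^ d * e := by positivity
  calc PP d ν (badS d a b k) ≤ _ := measure_mono hsub
    _ ≤ ∑ j ∈ Finset.range (⌊|b - a| / e⌋₊ + 1),
        PP d ν ({V : Site d → ℝ | ¬ NoEig V A (a + j * e) (2 * e)} ∩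
          {V : Site d → ℝ | ¬ NoEig V B (a + j * e) (2 * e)}) := measure_biUnion_finset_le _ _
    _ ≤ ∑ _j ∈ Finset.range (⌊|b - a| / e⌋₊ + 1),
        ENNReal.ofReal ((128 * ρ * (16 * k + 1) ^ d * e) ^ 2) := by
      refine Finset.sum_le_sum fun j _ => ?_
      rw [PP_inter ν hAB (hm A _) (hm B _) (fun W W' hW => not_congr (noEig_congr hW _ _))
        (fun W W' hW => not_congr (noEig_congr hW _ _)), sq, ENNReal.ofReal_mul hK]
      exact mul_le_mul' (hp A _ hAc) (hp B _ hBc)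
    _ = ENNReal.ofReal ((⌊|b - a| / e⌋₊ + 1) * (128 * ρ * (16 * k + 1) ^ d * e) ^ 2) := by
      rw [Finset.sum_const, Finset.card_range, nsmul_eq_mul, ENNReal.ofReal_mul (by positivity)]
      congr 1
      rw [← Nat.cast_succ, ENNReal.ofReal_natCast]
    _ ≤ _ := by
      apply ENNReal.ofReal_le_ofReal
      have h1 : ((⌊|b - a| / e⌋₊ : ℕ) : ℝ) ≤ |b - a| / e := Nat.floor_le (by positivity)
      have h2 : ((⌊|b - a| / e⌋₊ : ℕ) + 1 : ℝ) * e ≤ |b - a| + 1 := by
        calc ((⌊|b - a| / e⌋₊ : ℕ) + 1 : ℝ) * e ≤ (|b - a| / e + 1) * e := by gcongr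
          _ = |b - a| + e := by field_simp
          _ ≤ _ := by linarith
      rw [← he]
      calc ((⌊|b - a| / e⌋₊ : ℕ) + 1 : ℝ) * (128 * ρ * (16 * k + 1) ^ d * e) ^ 2
          = (((⌊|b - a| / e⌋₊ : ℕ) + 1 : ℝ) * e) * ((128 * ρ) ^ 2 *
            ((16 * k + 1) ^ (2 * d) * e)) := by ring
        _ ≤ (|b - a| + 1) * ((128 * ρ) ^ 2 * ((16 * k + 1) ^ (2 * d) * e)) := by gcongr
        _ = _ := by ring

theorem summable_sep (d : ℕ) (c : ℝ) : Summable fun k : ℕ =>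
    c * (((16 * k + 1 : ℝ)) ^ (2 * d) * Real.exp (-√k)) := by
  apply Summable.mul_left
  rw [← summable_nat_add_iff 1]
  have h0 : Summable fun k : ℕ => (17 : ℝ) ^ (2 * d) * (4 * d + 4)! *
      (1 / ((k + 1 : ℕ) : ℝ) ^ 2) := by
    apply Summable.mul_left
    exact (summable_nat_add_iff 1).2 (Real.summable_one_div_nat_pow.2 (by norm_num))
  refine Summable.of_nonneg_of_le (fun k => by positivity) (fun k => ?_) h0
  have hk : (1 : ℝ) ≤ ((k + 1 : ℕ) : ℝ) := by
    push_cast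
    linarith [Nat.cast_nonneg (α := ℝ) k]
  obtain ⟨t, ht⟩ : ∃ t : ℝ, t = ((k + 1 : ℕ) : ℝ) := ⟨_, rfl⟩
  rw [← ht] at hk ⊢
  have ht0 : 0 < t := by linarith
  have h1 := Real.pow_div_factorial_le_exp _ (Real.sqrt_nonneg t) (4 * d + 4)
  have h2 : √t ^ (4 * d + 4) = t ^ (2 * d + 2) := by
    rw [show 4 * d + 4 = 2 * (2 * d + 2) by ring, pow_mul, Real.sq_sqrt ht0.le]
  rw [h2] at h1
  have h3 : Real.exp (-√t) ≤ (4 * d + 4)! / t ^ (2 * d + 2) := by
    rw [Real.exp_neg, inv_le_comm₀ (Real.exp_pos _) (by positivity), inv_div]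
    exact h1
  have h4 : (16 * t + 1) ^ (2 * d) ≤ (17 * t) ^ (2 * d) := by
    apply pow_le_pow_left₀ (by positivity)
    linarith
  calc (16 * t + 1) ^ (2 * d) * Real.exp (-√t)
      ≤ (17 * t) ^ (2 * d) * ((4 * d + 4)! / t ^ (2 * d + 2)) := by gcongr
    _ = 17 ^ (2 * d) * (4 * d + 4)! * (1 / t ^ 2) := by
      rw [mul_pow, pow_add]
      field_simp

/-- SEP -/
theorem sep (hweg : WegStmt) : SepStmt := by
  intro d ν _ ρ hν a b
  have hρ := hν.1
  have hfin : (∑' k, PP d ν (badS d a b k)) ≠ ∞ := by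
    refine ne_top_of_le_ne_top ?_ (ENNReal.tsum_le_tsum fun k => prob_badS hweg hν a b k)
    rw [← ENNReal.ofReal_tsum_of_nonneg (fun k => by positivity) (summable_sep d _)]
    exact ENNReal.ofReal_ne_top
  filter_upwards [ae_eventually_notMem hfin] with V hV
  obtain ⟨k₀, hk₀⟩ := Filter.eventually_atTop.1 hV
  refine ⟨k₀, fun k hk E hE => ?_⟩
  by_contra hcon
  push Not at hcon
  exact hk₀ k hk ⟨E, hE, hcon.1, hcon.2⟩

end Pool.Agent.Mob.H6
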